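import Pool.Agent.EDX.Stmts2

set_option autoImplicit false

namespace Pool.Agent.EDX.H3

open Finset

/-- coordinatewise reduction -/
def red (ι : Type) (N : ℕ) : (ι → ℤ) →+ (ι → ZMod N) where
  toFun w := fun x => ((w x : ℤ) : ZMod N)
  map_zero' := by funext x; simp
  map_add' := by intro a b; funext x; simp

theorem red_surj (ι : Type) (N : ℕ) : Function.Surjective (red ι N) := by
  intro w
  refine ⟨fun x => (ZMod.intCast_surjective (w x)).choose, ?_⟩
  funext x
  exact (ZMod.intCast_surjective (w x)).choose_spec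

theorem index_range {ι : Type} [Fintype ι] [DecidableEq ι] (M : Matrix ι ι ℤ) (hM : M.det ≠ 0) :
    (LinearMap.range (Matrix.toLin' M)).toAddSubgroup.index = M.det.natAbs := by
  have hdet : LinearMap.det (Matrix.toLin' M) = M.det := LinearMap.det_toLin' M
  have hinj : Function.Injective (Matrix.toLin' M) := by
    rw [← LinearMap.ker_eq_bot, LinearMap.ker_eq_bot']
    intro v hv
    by_contra hne
    exact hM (Matrix.exists_mulVec_eq_zero_iff.1 ⟨v, hne, by simpa using hv⟩)
  have h := Submodule.natAbs_det_equiv (LinearMap.range (Matrix.toLin' M))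
    (LinearEquiv.ofInjective (Matrix.toLin' M) hinj)
  rw [← hdet]
  exact h.symm

theorem idx : IdxStmt := by
  intro ι _ _ M n c hM hc
  set H : AddSubgroup (ι → ℤ) := (LinearMap.range (Matrix.toLin' M)).toAddSubgroup with hH
  have hHi : H.index = M.det.natAbs := index_range M hM
  set W : AddSubgroup (ι → ZMod (2 ^ n)) := H.map (red ι (2 ^ n)) with hW
  have hdvd : W.index ∣ H.index := AddSubgroup.index_map_dvd H (red_surj ι (2 ^ n))
  have hpos : 0 < M.det.natAbs := Int.natAbs_pos.2 hM
  have hle : W.index ≤ M.det.natAbs := Nat.le_of_dvd hpos (hHi ▸ hdvd)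
  have hset : {w : ι → ZMod (2 ^ n) | ∃ a : ι → ℤ, ∀ x, w x = ((M.mulVec a x : ℤ) : ZMod (2 ^ n))} =
      (W : Set (ι → ZMod (2 ^ n))) := by
    ext w
    constructor
    · rintro ⟨a, ha⟩
      refine ⟨M.mulVec a, ⟨a, by simp⟩, ?_⟩
      funext x
      exact (ha x).symm
    · rintro ⟨v, ⟨a, ha⟩, hv⟩
      refine ⟨a, fun x => ?_⟩
      rw [← hv, ← ha]
      simp [red]
  rw [hset] at hc
  have hWc : Nat.card W ≤ 2 ^ c := hc
  have hmul := W.card_mul_index
  have hcard : Nat.card (ι → ZMod (2 ^ n)) = 2 ^ (n * Fintype.card ι) := by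
    rw [Nat.card_fun, Nat.card_zmod, Nat.card_eq_fintype_card, ← pow_mul]
  rw [hcard] at hmul
  rw [← hmul]
  exact Nat.mul_le_mul hWc hle

end Pool.Agent.EDX.H3
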