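import Pool.Agent.EDX.Stmts4

set_option autoImplicit false

namespace Pool.Agent.EDX.H3

open Finset

theorem pow_card_primeFactors_le (p : ℕ) (hp : p ≠ 0) : 2 ^ p.primeFactors.card ≤ p := by
  calc 2 ^ p.primeFactors.card ≤ ∏ q ∈ p.primeFactors, q :=
        Finset.pow_card_le_prod _ _ _ (fun q hq => (Nat.prime_of_mem_primeFactors hq).two_le)
    _ ≤ p := Nat.le_of_dvd (Nat.pos_of_ne_zero hp) (Nat.prod_primeFactors_dvd p)

theorem nma : NmaStmt := by
  intro δ K₃ hδ hδ1 hK
  have hl2 : 0 < Real.log 2 := Real.log_pos (by norm_num)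
  refine ⟨Real.log K₃ - 1 - Real.log (δ * Real.log 2), ?_⟩
  intro n D m p hn hD hm hnp hp
  have hp0 : p ≠ 0 := by omega
  have hp0' : (0 : ℝ) < p := by exact_mod_cast Nat.pos_of_ne_zero hp0
  have hD' : (0 : ℝ) < D := by exact_mod_cast hD
  have h1 : (p.primeFactors.card : ℝ) * Real.log 2 ≤ Real.log p := by
    rw [← Real.log_pow]
    refine Real.log_le_log (by positivity) ?_
    exact_mod_cast pow_card_primeFactors_le p hp0
  have hd : 0 < δ * Real.log 2 := mul_pos hδ hl2
  have h2 : Real.log p ≤ δ * Real.log 2 * p - 1 - Real.log (δ * Real.log 2) := by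
    have h := Real.log_le_sub_one_of_pos (mul_pos hd hp0')
    rw [Real.log_mul hd.ne' hp0'.ne'] at h
    linarith
  have h3 : (m : ℝ) * Real.log 2 ≤ Real.log K₃ + Real.log D := by
    rw [← Real.log_pow, ← Real.log_mul hK.ne' hD'.ne']
    exact Real.log_le_log (by positivity) hm
  have h4 : (p : ℝ) ≤ m + p.primeFactors.card := by exact_mod_cast hp
  have h5 : (p : ℝ) * Real.log 2 ≤ m * Real.log 2 + p.primeFactors.card * Real.log 2 := by
    rw [← add_mul]
    exact mul_le_mul_of_nonneg_right h4 hl2.le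
  have h6 : (n : ℝ) ≤ p := by exact_mod_cast hnp
  have h7 : (1 - δ) * n * Real.log 2 ≤ (1 - δ) * p * Real.log 2 := by
    have : 0 ≤ 1 - δ := by linarith
    gcongr
  have h8 : (1 - δ) * p * Real.log 2 = p * Real.log 2 - δ * Real.log 2 * p := by ring
  linarith

end Pool.Agent.EDX.H3
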